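import Pool.Agent.Lib.MP_fa837f_gt.P2.Iface
import Pool.Agent.Lib.MP_fa837f_gt.FourFun

/-! Project P2, module KG: Gaussian kernels. -/

set_option autoImplicit false

open MeasureTheory Matrix Set Filter Topology

namespace Pool.Agent.Lib.MP_fa837f_gt.P2.H43

open Pool.Agent.Lib.MP_fa837f_gt Pool.Agent.Lib.MP_fa837f_gt.P2

variable {n k : ℕ}

/-- Three columns as a matrix. -/
def eqv (k : ℕ) : (Fin 3 → Fin k → ℝ) ≃ᵐ (Fin k × Fin 3 → ℝ) where
  toFun z := fun p => z p.2 p.1
  invFun y := fun c a => y (a, c)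
  left_inv z := rfl
  right_inv y := rfl
  measurable_toFun := by
    refine measurable_pi_iff.2 fun p => ?_
    exact (measurable_pi_apply p.1).comp (measurable_pi_apply p.2)
  measurable_invFun := by
    refine measurable_pi_iff.2 fun c => measurable_pi_iff.2 fun a => ?_
    exact measurable_pi_apply (a, c)

lemma mp_eqv (k : ℕ) : MeasurePreserving (eqv k) volume volume := by
  refine ⟨(eqv k).measurable, ?_⟩
  symm
  refine Measure.pi_eq fun s _ => ?_
  rw [(eqv k).map_apply]
  have h1 : (eqv k) ⁻¹' (Set.univ.pi s) =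
      Set.univ.pi fun c => Set.univ.pi fun a => s (a, c) := by
    ext z
    simp only [Set.mem_preimage, Set.mem_pi, Set.mem_univ, true_implies]
    constructor
    · intro h c a
      exact h (a, c)
    · intro h p
      exact h p.2 p.1
  rw [h1, volume_pi_pi]
  simp_rw [volume_pi_pi]
  rw [Fintype.prod_prod_type_right]

lemma quad_RR (m : Fin n → Fin k → ℝ) (s : Fin n → ℝ) (x : Fin k → ℝ) :
    quad (RR m s) x = ∑ i, s i * (m i ⬝ᵥ x) ^ 2 := by
  have h : ∀ t : Finset (Fin n), quad (∑ i ∈ t, s i • vecMulVec (m i) (m i)) x =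
      ∑ i ∈ t, s i * (m i ⬝ᵥ x) ^ 2 := by
    intro t
    induction t using Finset.induction_on with
    | empty => simp [quad]
    | insert a t ha ih => rw [Finset.sum_insert ha, Finset.sum_insert ha, quad_add, quad_rankOne, ih]
  exact h Finset.univ

lemma RR_posDef {m : Fin n → Fin k → ℝ} {s : Fin n → ℝ} (hm : Spans m) (hs : ∀ i, 0 < s i) :
    (RR m s).PosDef := by
  have hsym : (RR m s).IsHermitian := by
    unfold RR Matrix.IsHermitian
    rw [conjTranspose_eq_transpose_of_trivial, transpose_sum]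
    refine Finset.sum_congr rfl fun i _ => ?_
    rw [transpose_smul, transpose_vecMulVec]
  refine PosDef.of_dotProduct_mulVec_pos hsym fun {x} hx => ?_
  have h1 : (star x) ⬝ᵥ (RR m s *ᵥ x) = ∑ i, s i * (m i ⬝ᵥ x) ^ 2 := by
    rw [star_trivial]
    exact quad_RR m s x
  rw [h1]
  refine lt_of_le_of_ne (Finset.sum_nonneg fun i _ => mul_nonneg (hs i).le (sq_nonneg _)) ?_
  intro h0
  apply hx
  apply hm
  intro i
  have h2 := (Finset.sum_eq_zero_iff_of_nonneg
    (fun i _ => mul_nonneg (hs i).le (sq_nonneg (m i ⬝ᵥ x)))).1 h0.symm i (Finset.mem_univ i)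
  have h3 : (m i ⬝ᵥ x) ^ 2 = 0 := by
    rcases mul_eq_zero.1 h2 with h | h
    · exact absurd h (hs i).ne'
    · exact h
  exact pow_eq_zero_iff (two_ne_zero) |>.1 h3

lemma Gm_eqv (m : Fin n → Fin k → ℝ) (z : Fin 3 → Fin k → ℝ) (i : Fin n) :
    Gm m (eqv k z) i i = ∑ c, (m i ⬝ᵥ z c) ^ 2 := by
  unfold Gm Yv
  refine Finset.sum_congr rfl fun c _ => ?_
  rw [pow_two]
  rfl

lemma exp_eqv (m : Fin n → Fin k → ℝ) (s : Fin n → ℝ) (z : Fin 3 → Fin k → ℝ) :
    Real.exp (-(∑ i, s i * Gm m (eqv k z) i i)) = ∏ c, Real.exp (-(quad (RR m s) (z c))) := by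
  rw [← Real.exp_sum, Finset.sum_neg_distrib]
  congr 2
  simp_rw [Gm_eqv, quad_RR, Finset.mul_sum]
  rw [Finset.sum_comm]

theorem kg_st : KgStatement := by
  intro n k m s hm hs
  have hS := RR_posDef hm hs
  have hI := integrable_gauss hS
  have h1 : Integrable fun x : Fin k → ℝ => Real.exp (-(∑ i, s i * (m i ⬝ᵥ x) ^ 2)) := by
    simpa only [quad_RR] using hI
  have h2 : Integrable fun z : Fin 3 → Fin k → ℝ =>
      ∏ c, Real.exp (-(quad (RR m s) (z c))) :=
    Integrable.fintype_prod (f := fun _ x => Real.exp (-(quad (RR m s) x))) fun _ => hI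
  have h3 : Integrable fun y : Pt k => Real.exp (-(∑ i, s i * Gm m y i i)) := by
    rw [← (mp_eqv k).integrable_comp_emb (eqv k).measurableEmbedding]
    refine h2.congr (Filter.Eventually.of_forall fun z => ?_)
    exact (exp_eqv m s z).symm
  refine ⟨h3, h1, ?_⟩
  rw [integral_const_mul, ← (mp_eqv k).integral_comp (eqv k).measurableEmbedding]
  simp_rw [exp_eqv]
  rw [integral_fintype_prod_volume_eq_prod (fun _ x => Real.exp (-(quad (RR m s) x)))]
  rw [Finset.prod_const, Finset.card_univ, Fintype.card_fin]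
  have h4 := gint_sq_mul_det hS
  simp_rw [← quad_RR]
  rw [← h4]
  unfold gint
  ring

end Pool.Agent.Lib.MP_fa837f_gt.P2.H43
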